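import Pool.Agent.Helper17_AHH.PqZ
import Pool.Agent.Helper67_AHH.Ok

/-!
# AND2B: the numbers of the block lemma for the concrete budget, in the form `Ev`

`numZ`: eventually, for all stages, `EOk`, `BNum` and the bound `V.p n` of the probability.
-/

set_option autoImplicit false

open scoped BigOperators NNReal

noncomputable section

namespace Pool.Agent.AHH.H17

open Pool.Agent.BED (Tor)
open Pool.Agent.AND2B (Ev)
open Pool.Agent.ANP (Cfg)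
open Pool.Agent.AND.Num
open Pool.Agent.AHH.H61
open Pool.Agent.AHH.H67 (Par flOf BNum EOk CF one_le_CF)
open Pool.Agent.AFL (Fl)
open Pool.Agent.AFL.H17 (Pq Cs Out rp_mul rp_sq prn_of KL_le exp_sg)

variable {d : ℕ}

/-- all the conditions on small clocks -/
structure SmZ (d : ℕ) (c C Cf : ℝ) (th : ℝ≥0) (C₁ : ℝ) (α : ℕ) (s : ℝ) : Prop where
  p : SmP d α s
  del : 3 * s ^ (1 / 20 : ℝ) ≤ 1 / 4
  inc : (2 + cpd d) * s ^ (1 / 8 - 1 / 200 : ℝ) ≤ 1 / 4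
  out : 1 - c * T1 d C / 4 ≤ (th : ℝ) → ∀ (X : Type) [Fintype X] [DecidableEq X] (F : Fl X),
    Pq F (k0f c th) (t1f c th) 1 2 (w0f d th) (4 * C) (2 + cpd d) (1 / 200) (kaf α / 4)
      (Kcf d α C₁) (kaf α / 64) ⌈3 / w0f d th⌉₊ s → Out F (c / 2) (2 * C) Cf (kaf α / 64) s

theorem smZ (d : ℕ) {c C Cf : ℝ} (hc : 0 < c) (hC : 1 ≤ C) (hCf : 0 ≤ Cf) {th : ℝ≥0}
    {C₁ : ℝ} {α : ℕ} (hth : 1 / 2 ≤ th) (hth1 : th < 1) (hα : 2 ≤ α) :
    Small fun s => SmZ d c C Cf th C₁ α s := by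
  have h1 := smP d α
  have h2 : Small fun s => 3 * s ^ (1 / 20 : ℝ) ≤ 1 / 4 := by
    refine (small_pow' 3 (1 / 4) (1 / 20) 0 (by norm_num) (by norm_num)).mono ?_
    intro s _ hh
    simpa using hh
  have h3 : Small fun s => (2 + cpd d) * s ^ (1 / 8 - 1 / 200 : ℝ) ≤ 1 / 4 := by
    refine (small_pow' (2 + cpd d) (1 / 4) (1 / 8 - 1 / 200) 0 (by norm_num)
      (by norm_num)).mono ?_
    intro s _ hh
    simpa using hh
  by_cases hT : 1 - c * T1 d C / 4 ≤ (th : ℝ)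
  · have hcs := cs d (C₁ := C₁) hc hC hCf hth hth1 hα hT
    obtain ⟨k1, k2⟩ := KL_le hcs.om
    have h4 := prn_of hcs _ k1 k2
    refine (((h1.and h2).and h3).and h4).mono ?_
    rintro s - ⟨⟨⟨a1, a2⟩, a3⟩, a4⟩
    exact ⟨a1, a2, a3, fun _ => a4⟩
  · refine ((h1.and h2).and h3).mono ?_
    rintro s - ⟨⟨a1, a2⟩, a3⟩
    exact ⟨a1, a2, a3, fun h => absurd h hT⟩

/-- the bound for `e₀` -/
def e0f (c : ℝ) (V : AND2B.Env d) : ℝ :=
  min (1 / (2 * V.L)) (V.sg (V.N + 1) ^ (1 / 8 - 1 / 200 : ℝ) /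
    (CF d * V.L ^ 2 / (c / 2 * V.sg (V.N + 1))) ^ 2)

section

variable {V : AND2B.Env d} {a c C Cf : ℝ} {n k : ℕ}

theorem eOk (hG : V.Good a es c C) (hth : 2 / 3 ≤ (V.th : ℝ)) (hc : 0 < c) (hc1 : c ≤ 1 / 2)
    (hC : 1 ≤ C) (k : ℕ) : EOk (toE V c C) k := by
  have hP := hG.toPre
  refine ⟨⟨hth, by exact_mod_cast hP.th.2⟩, ⟨?_, ?_, ?_⟩, ⟨cl_pos' hP k, ?_⟩, hG.e0⟩
  · show 0 < c / 2
    linarith
  · show c / 2 ≤ 1
    linarith
  · show 1 ≤ 2 * C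
    linarith
  · show (V.cl (k + 1) : ℝ) = V.th * V.cl k
    rw [cl_succ V k]
    push_cast
    rfl

/-- `BNum` -/
theorem bnum (hG : V.Good a es c C) (hth : 2 / 3 ≤ (V.th : ℝ)) (hc : 0 < c) (hc1 : c ≤ 1 / 2)
    (hC : 1 ≤ C) (hn : n ≤ V.N) (hk : V.kk n ≤ k) (hk' : k < V.kk (n + 1))
    (hT : 1 - c * T1 d C / 4 ≤ (V.th : ℝ)) (he : V.e₀ ≤ e0f c V)
    (hW : SmZ d c C Cf V.th V.C₁ V.α V.w) (hS : SmZ d c C Cf V.th V.C₁ V.α (V.cl k))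
    {rG : ℝ} (hr : rG ≤ 3 * C) : BNum (toE V c C) (bud V) n k rG (parZ V c C n k) := by
  have hP := hG.toPre
  have hs := cl_pos' hP k
  have hs1 := hS.p.one
  have hw := hW.p.one
  have hsw := cl_le' hP k
  have hw0 := w_pos hP
  have hth' := th_pos hP
  have hth0 : (0 : ℝ) < V.th := by exact_mod_cast hth'
  have hth1 : (V.th : ℝ) < 1 := by exact_mod_cast hP.th.2
  have hcp := one_le_cpd d
  have hka := kaf_pos V.α
  have hka1 := kaf_le hP.al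
  have hcl : (V.cl (k + 1) : ℝ) = V.th * V.cl k := by
    rw [cl_succ V k]; push_cast; rfl
  have hk1 : k + 1 ≤ V.kk (V.N + 1) := by
    have h1 : V.kk (n + 1) ≤ V.kk (V.N + 1) := kk_mono hP (by omega)
    omega
  have hlast : V.sg (V.N + 1) ≤ V.cl (k + 1) := sg_last hP hk1
  have hlast0 : 0 < V.sg (V.N + 1) := sg_pos hP _
  have hcl1 : (V.cl (k + 1) : ℝ) ≤ V.cl k := cl_anti' hP (Nat.le_succ k)
  have hlast2 : V.sg (V.N + 1) ≤ V.cl k := hlast.trans hcl1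
  have hsg1 : V.sg n ^ (1 / 400 : ℝ) ≤ 1 :=
    Real.rpow_le_one (sg_pos hP n).le ((sg_le hP n).trans hw) (by norm_num)
  have hsg0 : 0 ≤ V.sg n ^ (1 / 400 : ℝ) := Real.rpow_nonneg (sg_pos hP n).le _
  have hl0 : 0 < (qq V n k).lam := by
    show 0 < 1 / 4 * (V.cl k : ℝ) ^ (-(3 / 4) : ℝ) * (2 - V.sg n ^ (1 / 400 : ℝ))
    have h3 : 0 < (V.cl k : ℝ) ^ (-(3 / 4) : ℝ) := Real.rpow_pos_of_pos hs _
    exact mul_pos (by positivity) (by linarith)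
  have hL := hP.hL
  have hF := pqF hP hn hk hw hS.p hc hc1 hC (cfg0 V) ∅ ∅ ∅ ∅ ∅ ∅ (by
    rw [Finset.card_empty]; push_cast; positivity) (by
    rw [Finset.card_empty]; push_cast; positivity)
  have hO := hS.out hT _ _ hF
  have hom : 0 < omg V := div_pos (by linarith) (by positivity)
  have hom1 : omg V ≤ 1 / 2 := by
    unfold omg
    rw [div_le_iff₀ (by positivity)]
    linarith
  have hw50 : (V.w : ℝ) ^ (1 / 50 : ℝ) ≤ 1 := Real.rpow_le_one hw0.le hw (by norm_num)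
  refine
    { κv := ⟨?_, ?_, ?_⟩, inc := ?_, mis := ?_, r := ⟨?_, ?_⟩, lam := ⟨hl0.le, ?_, ?_⟩
      wl := ⟨hL, ?_, ?_⟩, num := ?_, hs3 := ⟨?_, ?_⟩, hTv := hO.hTv, hδ := hO.hδ, hz := hO.hz
      hL0 := hO.hL0 }
  · show 0 < c / 2 * V.cl (k + 1)
    have := cl_pos' hP (k + 1)
    positivity
  · show c / 2 * V.cl (k + 1) ≤ 1
    nlinarith
  · exact le_refl _
  · show 0 ≤ (V.cl k : ℝ) ^ (1 / 8 - 1 / 200 : ℝ)
    positivity
  · show (V.cl k : ℝ) ^ (1 / 8 : ℝ) + (V.cl k : ℝ) ^ (1 / 8 - 1 / 200 : ℝ) * cpd d ≤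
      (2 + cpd d) * (V.cl k : ℝ) ^ (1 / 8 - 1 / 200 : ℝ)
    have h1 : (V.cl k : ℝ) ^ (1 / 8 : ℝ) ≤ (V.cl k : ℝ) ^ (1 / 8 - 1 / 200 : ℝ) :=
      rpow_anti hs hs1 (by norm_num)
    have h2 : 0 ≤ (V.cl k : ℝ) ^ (1 / 8 - 1 / 200 : ℝ) := by positivity
    linarith
  · show 1 ≤ 4 * C
    linarith
  · show rG + gr V (1 / 20) n k + (V.cl k : ℝ) ^ (1 / 8 - 1 / 200 : ℝ) * cpd d +
      (V.cl k : ℝ) ^ (1 / 8 - 1 / 200 : ℝ) ≤ 4 * C
    have h1 := (gr_bd V hP.th.2.le (p := 1 / 20) (by norm_num) n k).2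
    have h2 := hW.del
    have h3 := hS.inc
    have h4 : 0 ≤ (V.cl k : ℝ) ^ (1 / 8 - 1 / 200 : ℝ) := by positivity
    nlinarith
  · show 0 ≤ (1 - (V.th : ℝ)) / (8 * cpd d)
    exact div_nonneg (by linarith) (by positivity)
  · show (qq V n k).lam * (1 + (1 - (V.th : ℝ)) / (8 * cpd d) * cpd d) ≤ 4 * (qq V n k).lam / 2
    have h1 : (1 - (V.th : ℝ)) / (8 * cpd d) * cpd d = (1 - V.th) / 8 := by
      field_simp
    rw [h1]
    nlinarith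
  · show 2 * V.L * V.e₀ ≤ 1
    have h1 := he.trans (min_le_left _ _)
    rw [le_div_iff₀ (by positivity)] at h1
    linarith
  · show V.e₀ * (CF d * V.L ^ 2 / (c / 2 * V.cl (k + 1))) ^ 2 ≤
      (V.cl k : ℝ) ^ (1 / 8 - 1 / 200 : ℝ)
    have hCF := one_le_CF d
    have h1 := he.trans (min_le_right _ _)
    have hpos : 0 < (CF d * V.L ^ 2 / (c / 2 * V.sg (V.N + 1))) ^ 2 := by positivity
    rw [le_div_iff₀ hpos] at h1
    have h2 : (CF d * V.L ^ 2 / (c / 2 * V.cl (k + 1))) ^ 2 ≤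
        (CF d * V.L ^ 2 / (c / 2 * V.sg (V.N + 1))) ^ 2 := by
      have := cl_pos' hP (k + 1)
      refine pow_le_pow_left₀ (by positivity) ?_ 2
      exact div_le_div_of_nonneg_left (by positivity) (by positivity)
        (mul_le_mul_of_nonneg_left hlast (by positivity))
    calc _ ≤ V.e₀ * (CF d * V.L ^ 2 / (c / 2 * V.sg (V.N + 1))) ^ 2 :=
          mul_le_mul_of_nonneg_left h2 hG.e0.le
      _ ≤ V.sg (V.N + 1) ^ (1 / 8 - 1 / 200 : ℝ) := h1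
      _ ≤ _ := Real.rpow_le_rpow hlast0.le hlast2 (by norm_num)
  · refine ⟨?_, ?_, ?_, hom, hom1, ?_, ?_, ?_, ?_, ?_, ?_, ?_, hO.hn.1, hO.hn.2⟩
    · show 0 ≤ 2 + cpd d
      linarith
    · show 0 < (V.cl k : ℝ) ^ (1 / 8 - 1 / 200 : ℝ)
      positivity
    · show 0 < 4 * (qq V n k).lam
      linarith
    · show 0 ≤ (V.cl k : ℝ) ^ kg V
      positivity
    · show (V.cl k : ℝ) ^ (kaf V.α / 4) ≤ 1
      exact Real.rpow_le_one hs.le hs1 (by positivity)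
    · show 0 ≤ (V.cl k : ℝ) ^ kg V * ((V.w : ℝ) ^ (1 / 50 : ℝ) * (V.cl k : ℝ) ^ (2 * ka V)) ^ 2
      positivity
    · show 0 ≤ (V.cl k : ℝ) ^ (1 / 4 + kg V)
      positivity
    · show 0 < (V.w : ℝ) ^ (1 / 50 : ℝ) * (V.cl k : ℝ) ^ (2 * ka V)
      positivity
    · show (V.w : ℝ) ^ (1 / 50 : ℝ) * (V.cl k : ℝ) ^ (2 * kaf V.α) ≤ 1
      have h1 : (V.cl k : ℝ) ^ (2 * kaf V.α) ≤ 1 := Real.rpow_le_one hs.le hs1 (by positivity)
      exact mul_le_one₀ hw50 (by positivity) h1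
    · show 0 < (V.cl k : ℝ) ^ (1 / 16 - 1 / 200 : ℝ)
      positivity
  · show 0 ≤ (V.cl k : ℝ) ^ (-1 : ℝ)
    positivity
  · show 0 ≤ (V.cl k : ℝ) ^ (10 : ℝ)
    positivity

/-- the bound of the probability -/
theorem prZ (hG : V.Good a es c C) (hc : 0 < c) (hc1 : c ≤ 1 / 2)
    (hC : 1 ≤ C) (hn : n ≤ V.N) (hk : V.kk n ≤ k)
    (hT : 1 - c * T1 d C / 4 ≤ (V.th : ℝ)) (hβ : V.β ≤ kaf V.α / 128)
    (hW : SmZ d c C Cf V.th V.C₁ V.α V.w) (hS : SmZ d c C Cf V.th V.C₁ V.α (V.cl k))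
    (T : Cfg (Tor d (2 ^ V.μ))) (b Q Q1 run U Yg : Finset (Tor d (2 ^ V.μ)))
    (hQ1 : (Q1.card : ℝ) ≤ ((2 : ℝ) ^ (V.l n + 4)) ^ d)
    (hQ : (Q.card : ℝ) ≤ ((2 : ℝ) ^ (V.l n + 4)) ^ d) :
    (flOf (toE V c C) T b Q Q1 run U Yg k (parZ V c C n k)).pr (c / 2) (2 * C) Cf ≤ V.p n := by
  have hP := hG.toPre
  have hw := hW.p.one
  have hF := pqF hP hn hk hw hS.p hc hc1 hC T b Q Q1 run U Yg hQ1 hQ
  have hO := hS.out hT _ _ hF
  have hka := kaf_pos V.α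
  refine hO.pr.trans ?_
  have h1 : V.p n = Real.exp (-(V.sg n ^ (-V.β))) := by
    show AND2B.pf V.w V.th V.kk V.β V.N n = _
    unfold AND2B.pf
    rw [if_pos hn]
  rw [h1]
  exact exp_sg (cl_pos' hP k) (cl_anti' hP hk) ((sg_le hP n).trans hw) (by positivity)
    (by linarith)

end

/-- THE NUMBERS: eventually, for all stages -/
theorem numZ (d : ℕ) {a c C Cf : ℝ} (hc : 0 < c) (hc1 : c ≤ 1 / 2) (hC : 1 ≤ C)
    (hCf : 0 ≤ Cf) : Ev d a es c C fun V => ∀ n k, n ≤ V.N → V.kk n ≤ k → k < V.kk (n + 1) →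
      EOk (toE V c C) k ∧
      (∀ rG : ℝ, rG ≤ 3 * C → BNum (toE V c C) (bud V) n k rG (parZ V c C n k)) ∧
      ∀ (T : Cfg (Tor d (2 ^ V.μ))) (b Q Q1 run U Yg : Finset (Tor d (2 ^ V.μ))),
        (Q1.card : ℝ) ≤ ((2 : ℝ) ^ (V.l n + 4)) ^ d →
        (Q.card : ℝ) ≤ ((2 : ℝ) ^ (V.l n + 4)) ^ d →
        (flOf (toE V c C) T b Q Q1 run U Yg k (parZ V c C n k)).pr (c / 2) (2 * C) Cf ≤
          V.p n := by
  have hT1 := T1_pos d hC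
  have h1 : Ev d a es c C fun V => ∀ s : ℝ, 0 < s → s ≤ V.w →
      SmZ d c C Cf V.th V.C₁ V.α s :=
    ev_small (fun th _ C₁ α _ s => SmZ d c C Cf th C₁ α s)
      fun th _ C₁ α _ h1 h2 _ h3 => smZ d hc hC hCf h1 h2 h3
  have h2 : Ev d a es c C fun V => V.β ≤ kaf V.α / 128 :=
    ev_be (fun _ _ _ α _ => kaf α / 128) fun _ _ _ α _ _ _ _ _ => by
      have := kaf_pos α
      positivity
  have h3 : Ev d a es c C fun V => 1 - c * T1 d C / 4 ≤ (V.th : ℝ) :=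
    ev_th (c * T1 d C / 4) (by positivity)
  have h4 : Ev d a es c C fun V => 1 - 1 / 3 ≤ (V.th : ℝ) := ev_th (1 / 3) (by norm_num)
  have h5 : Ev d a es c C fun V => V.e₀ ≤ e0f c V := by
    refine ev_e0 (fun V => e0f c V) (fun V hV => ?_) fun _ _ _ _ => rfl
    have hCF := one_le_CF d
    have hL := hV.hL
    have hs := sg_pos hV (V.N + 1)
    unfold e0f
    exact lt_min (by positivity) (by positivity)
  refine (((((ev_good.and h1).and h2).and h3).and h4).and h5).imp fun V hV => ?_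
  obtain ⟨⟨⟨⟨⟨hG, g1⟩, g2⟩, g3⟩, g4⟩, g5⟩ := hV
  intro n k hn hk hk'
  have hP := hG.toPre
  have hth : 2 / 3 ≤ (V.th : ℝ) := by linarith
  have hW := g1 V.w (w_pos hP) le_rfl
  have hS := g1 (V.cl k) (cl_pos' hP k) (cl_le' hP k)
  exact ⟨eOk hG hth hc hc1 hC k,
    fun rG hr => bnum hG hth hc hc1 hC hn hk hk' g3 g5 hW hS hr,
    fun T b Q Q1 run U Yg hQ1 hQ => prZ hG hc hc1 hC hn hk g3 g2 hW hS T b Q Q1 run U Yg hQ1 hQ⟩

end Pool.Agent.AHH.H17
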