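import Pool.Agent.AHH.Z
import Pool.Agent.Helper67_AHH.FlOf

/-!
# AND2B: the concrete numbers of the block lemma

`parZ V c C n k`: the numbers of `flOf` for the stage `k` of the super-stage `n`, `s = cl k`.
-/

set_option autoImplicit false

noncomputable section

namespace Pool.Agent.AHH.H17

open Pool.Agent.AHH.H67 (Par)

variable {d : ℕ}

/-- the small exponent of the numbers -/
def kg (V : AND2B.Env d) : ℝ := ka V / 4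

/-- the allowed relative change of `Λ` by one block -/
def omg (V : AND2B.Env d) : ℝ := (1 - (V.th : ℝ)) / (64 * H61.cpd d)

/-- THE NUMBERS OF THE BLOCK LEMMA -/
def parZ (V : AND2B.Env d) (c C : ℝ) (n k : ℕ) : Par where
  κv := c / 2 * V.cl (k + 1)
  r := 4 * C
  N := 2 + H61.cpd d
  δ := (V.cl k : ℝ) ^ (1 / 8 - 1 / 200 : ℝ)
  L := 4 * (qq V n k).lam
  ω := omg V
  ε := (V.cl k : ℝ) ^ kg V
  s1 := (V.cl k : ℝ) ^ kg V * ((V.w : ℝ) ^ (1 / 50 : ℝ) * (V.cl k : ℝ) ^ (2 * ka V)) ^ 2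
  s3 := (V.cl k : ℝ) ^ (-1 : ℝ)
  old := (V.cl k : ℝ) ^ (10 : ℝ)
  s2 := (V.cl k : ℝ) ^ (1 / 4 + kg V)
  ε₁ := (V.w : ℝ) ^ (1 / 50 : ℝ) * (V.cl k : ℝ) ^ (2 * ka V)
  δY := (V.cl k : ℝ) ^ (1 / 16 - 1 / 200 : ℝ)
  z := (V.cl k : ℝ) ^ (-(63 / 64 : ℝ))
  L0 := (V.cl k : ℝ) ^ (-(kg V / 2))
  n := ⌈(V.cl k : ℝ) ^ (-(ka V / 64))⌉₊
  nL := ⌈3 / omg V⌉₊ * ⌈(V.cl k : ℝ) ^ (-(ka V / 64))⌉₊

end Pool.Agent.AHH.H17
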