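import Pool.Agent.Helper17_AHH.Par
import Pool.Agent.Helper17_AFL.Fin
import Pool.Agent.Helper61_AHH.Num

/-!
# AND2B: the concrete numbers satisfy the relations `Pq` of the block lemma
-/

set_option autoImplicit false

open scoped BigOperators NNReal

noncomputable section

namespace Pool.Agent.AHH.H17

open Pool.Agent.BED (Tor)
open Pool.Agent.AND2B (Ev)
open Pool.Agent.ANP (Cfg)
open Pool.Agent.AND.Num
open Pool.Agent.AHH.H61
open Pool.Agent.AHH.H67 (Par flOf)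
open Pool.Agent.AFL (Fl)
open Pool.Agent.AFL.H17 (Pq Cs Out rp_mul rp_sq)

variable {d : ℕ}

/-- the constants of the stage -/
def t1f (c : ℝ) (th : ℝ≥0) : ℝ := (1 - (th : ℝ)) / (c / 2 * th)

def k0f (c : ℝ) (th : ℝ≥0) : ℝ := c / 2 * th

def w0f (d : ℕ) (th : ℝ≥0) : ℝ := (1 - (th : ℝ)) / (64 * cpd d)

def Kcf (d : ℕ) (α : ℕ) (C₁ : ℝ) : ℝ := ((α : ℝ) + 1) * |C₁| * d + 1

/-- the bound for `t₁` -/
def T1 (d : ℕ) (C : ℝ) : ℝ :=
  min (1 / (8 * C)) (Real.log 2 / (3 * (4 * ((2 + cpd d) + 1) * (4 * C) + 32 * (4 * C))))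

theorem T1_pos (d : ℕ) {C : ℝ} (hC : 1 ≤ C) : 0 < T1 d C := by
  have h1 := one_le_cpd d
  have h2 : 0 < Real.log 2 := Real.log_pos (by norm_num)
  unfold T1
  refine lt_min (by positivity) (by positivity)

theorem t1f_le {c : ℝ} {th : ℝ≥0} {T : ℝ} (hc : 0 < c) (h0 : 0 ≤ T) (hth : 1 / 2 ≤ th)
    (hT : 1 - c * T / 4 ≤ (th : ℝ)) : t1f c th ≤ T := by
  have h1 : (1 / 2 : ℝ) ≤ th := by exact_mod_cast hth
  unfold t1f
  rw [div_le_iff₀ (by positivity)]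
  have h2 : c * T / 4 ≤ T * (c / 2 * th) := by
    have := mul_le_mul_of_nonneg_left h1 (by positivity : (0 : ℝ) ≤ T * (c / 2))
    linarith
  linarith

/-- the constants are as they should be -/
theorem cs (d : ℕ) {c C Cf : ℝ} (hc : 0 < c) (hC : 1 ≤ C) (hCf : 0 ≤ Cf) {th : ℝ≥0}
    {C₁ : ℝ} {α : ℕ} (hth : 1 / 2 ≤ th) (hth1 : th < 1) (hα : 2 ≤ α)
    (hT : 1 - c * T1 d C / 4 ≤ (th : ℝ)) :
    Cs (c / 2) (2 * C) Cf (k0f c th) (t1f c th) 1 2 (w0f d th) (4 * C) (2 + cpd d) (1 / 200)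
      (kaf α / 4) (Kcf d α C₁) (kaf α / 64) := by
  have h1 : (1 / 2 : ℝ) ≤ th := by exact_mod_cast hth
  have h2 : (th : ℝ) < 1 := by exact_mod_cast hth1
  have hcp := one_le_cpd d
  have hT0 := T1_pos d hC
  have ht := t1f_le hc hT0.le hth hT
  have ht0 : 0 ≤ t1f c th := by unfold t1f; exact div_nonneg (by linarith) (by positivity)
  have hka := kaf_pos α
  have hka1 := kaf_le hα
  have a1 : t1f c th ≤ 1 / (8 * C) := ht.trans (min_le_left _ _)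
  have a2 : t1f c th ≤ Real.log 2 / (3 * (4 * ((2 + cpd d) + 1) * (4 * C) + 32 * (4 * C))) :=
    ht.trans (min_le_right _ _)
  rw [le_div_iff₀ (by positivity)] at a1 a2
  exact
    { c0 := by positivity
      C0 := by positivity
      C := hCf
      k := by unfold k0f; positivity
      t := ht0
      cL := one_pos
      CL := by norm_num
      om := by unfold w0f; exact div_pos (by linarith) (by positivity)
      r := by positivity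
      N := by positivity
      tC := by nlinarith
      tr := by nlinarith
      ex := by
        have h3 : 3 * AFL.H17.a0 (t1f c th) (4 * C) (2 + cpd d) ≤ Real.log 2 := by
          unfold AFL.H17.a0
          calc _ = t1f c th * (3 * (4 * ((2 + cpd d) + 1) * (4 * C) + 32 * (4 * C))) := by ring
            _ ≤ _ := a2
        calc Real.exp (3 * AFL.H17.a0 (t1f c th) (4 * C) (2 + cpd d)) ≤ Real.exp (Real.log 2) :=
              Real.exp_le_exp.2 h3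
          _ = 2 := Real.exp_log (by norm_num)
      e0 := by norm_num
      e1 := by norm_num
      c6 := by positivity
      c61 := by linarith
      Kc := by unfold Kcf; positivity
      g := by positivity
      ge := by linarith
      gc := by linarith }

/-- the smallness of the clocks which is needed for `Pq` -/
structure SmP (d : ℕ) (α : ℕ) (s : ℝ) : Prop where
  one : s ≤ 1
  vol : (16 : ℝ) ^ d ≤ s ^ (-1 : ℝ)

theorem smP (d α : ℕ) : Small fun s => SmP d α s :=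
  ((small_le 1 one_pos).and (small_const ((16 : ℝ) ^ d) 1 one_pos)).mono
    fun _ _ h => ⟨h.1, h.2⟩

section

variable {V : AND2B.Env d} {a c C : ℝ} {n k : ℕ}

/-- the clocks of a super-stage -/
theorem sg_low (hP : V.Pre a) (hn : n ≤ V.N) (hk : V.kk n ≤ k) (hw : (V.w : ℝ) ≤ 1) :
    (V.cl k : ℝ) ^ ((V.α : ℝ) + 1) ≤ V.sg (n + 1) := by
  have h1 := hP.sc.low n hn
  have h2 : (V.cl k : ℝ) ≤ V.sg n := cl_anti' hP hk
  refine le_trans ?_ h1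
  have h3 : V.sg n ^ (V.α + 1) = V.sg n ^ ((V.α : ℝ) + 1) := by
    rw [← Real.rpow_natCast]; push_cast; rfl
  calc (V.cl k : ℝ) ^ ((V.α : ℝ) + 1) ≤ V.sg n ^ ((V.α : ℝ) + 1) :=
        Real.rpow_le_rpow (cl_pos' hP k).le h2 (by positivity)
    _ = V.sg n ^ (V.α + 1) := h3.symm

/-- the number of sites of a box -/
theorem box_le (hP : V.Pre a) (hn : n ≤ V.N) (hk : V.kk n ≤ k) (hw : (V.w : ℝ) ≤ 1)
    (hS : SmP d V.α (V.cl k)) :
    ((2 : ℝ) ^ (V.l n + 4)) ^ d ≤ (V.cl k : ℝ) ^ (-(Kcf d V.α V.C₁)) := by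
  have hs := cl_pos' hP k
  have hsg := sg_pos hP (n + 1)
  have hsg1 : V.sg (n + 1) ≤ 1 := (sg_le hP _).trans hw
  have h1 := hP.sc.lup n hn
  have h2 : V.sg (n + 1) ^ (-V.C₁) ≤ V.sg (n + 1) ^ (-|V.C₁|) :=
    Real.rpow_le_rpow_of_exponent_ge hsg hsg1 (neg_le_neg (le_abs_self _))
  have h3 : V.sg (n + 1) ^ (-|V.C₁|) ≤ (V.cl k : ℝ) ^ (-(((V.α : ℝ) + 1) * |V.C₁|)) := by
    calc V.sg (n + 1) ^ (-|V.C₁|) ≤ ((V.cl k : ℝ) ^ ((V.α : ℝ) + 1)) ^ (-|V.C₁|) :=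
          Real.rpow_le_rpow_of_nonpos (by positivity) (sg_low hP hn hk hw)
            (by have := abs_nonneg V.C₁; linarith)
      _ = _ := by rw [← Real.rpow_mul hs.le]; congr 1; ring
  have h4 : (2 : ℝ) ^ V.l n ≤ (V.cl k : ℝ) ^ (-(((V.α : ℝ) + 1) * |V.C₁|)) :=
    h1.trans (h2.trans h3)
  have h5 : ((2 : ℝ) ^ (V.l n + 4)) ^ d = (2 ^ V.l n) ^ d * 16 ^ d := by
    rw [pow_add, mul_pow]; norm_num
  rw [h5]
  calc ((2 : ℝ) ^ V.l n) ^ d * 16 ^ d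
      ≤ ((V.cl k : ℝ) ^ (-(((V.α : ℝ) + 1) * |V.C₁|))) ^ d * (V.cl k : ℝ) ^ (-1 : ℝ) :=
        mul_le_mul (pow_le_pow_left₀ (by positivity) h4 d) hS.vol (by positivity) (by positivity)
    _ = _ := by
        rw [← Real.rpow_natCast, ← Real.rpow_mul hs.le]
        refine rp_mul hs _ _ _ ?_
        unfold Kcf
        ring

/-- the relations hold -/
theorem pqF (hP : V.Pre a) (hn : n ≤ V.N) (hk : V.kk n ≤ k) (hw : (V.w : ℝ) ≤ 1)
    (hS : SmP d V.α (V.cl k)) (hc : 0 < c) (hc1 : c ≤ 1 / 2) (hC : 1 ≤ C)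
    (T : Cfg (Tor d (2 ^ V.μ))) (b Q Q1 run U Yg : Finset (Tor d (2 ^ V.μ)))
    (hQ1 : (Q1.card : ℝ) ≤ ((2 : ℝ) ^ (V.l n + 4)) ^ d)
    (hQ : (Q.card : ℝ) ≤ ((2 : ℝ) ^ (V.l n + 4)) ^ d) :
    Pq (flOf (toE V c C) T b Q Q1 run U Yg k (parZ V c C n k)) (k0f c V.th) (t1f c V.th) 1 2
      (w0f d V.th) (4 * C) (2 + cpd d) (1 / 200) (kaf V.α / 4) (Kcf d V.α V.C₁) (kaf V.α / 64)
      ⌈3 / w0f d V.th⌉₊ (V.cl k) := by
  have hs := cl_pos' hP k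
  have hs1 := hS.one
  have hsw := cl_le' hP k
  have hw0 := w_pos hP
  have hth := th_pos hP
  have hth0 : (0 : ℝ) < V.th := by exact_mod_cast hth
  have hth1 : (V.th : ℝ) < 1 := by exact_mod_cast hP.th.2
  have hcp := one_le_cpd d
  have hka := kaf_pos V.α
  have hka1 := kaf_le hP.al
  have hbox := box_le hP hn hk hw hS
  have hsg1 : V.sg n ^ (1 / 400 : ℝ) ≤ 1 :=
    Real.rpow_le_one (sg_pos hP n).le ((sg_le hP n).trans hw) (by norm_num)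
  have hsg0 : 0 ≤ V.sg n ^ (1 / 400 : ℝ) := Real.rpow_nonneg (sg_pos hP n).le _
  have hcl : (V.cl (k + 1) : ℝ) = V.th * V.cl k := by
    rw [cl_succ V k]; push_cast; rfl
  have hw50 : (V.w : ℝ) ^ (1 / 50 : ℝ) ≤ 1 := Real.rpow_le_one hw0.le hw (by norm_num)
  have hw50' : (V.cl k : ℝ) ^ (1 / 50 : ℝ) ≤ (V.w : ℝ) ^ (1 / 50 : ℝ) :=
    Real.rpow_le_rpow hs.le hsw (by norm_num)
  have he1 : (V.cl k : ℝ) ^ (1 / 25 + 4 * kaf V.α) ≤
      ((V.w : ℝ) ^ (1 / 50 : ℝ) * (V.cl k : ℝ) ^ (2 * kaf V.α)) ^ 2 := by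
    rw [mul_pow, rp_sq hs (2 * kaf V.α) (4 * kaf V.α) (by ring),
      ← rp_mul hs (1 / 25) (4 * kaf V.α) _ rfl]
    refine mul_le_mul_of_nonneg_right ?_ (by positivity)
    rw [← rp_sq hs (1 / 50) (1 / 25) (by norm_num)]
    exact pow_le_pow_left₀ (by positivity) hw50' 2
  have hce : (V.cl k : ℝ) ^ (kaf V.α / 4 + (1 / 25 + 4 * kaf V.α)) ≤
      (V.cl k : ℝ) ^ (kaf V.α / 4) *
        ((V.w : ℝ) ^ (1 / 50 : ℝ) * (V.cl k : ℝ) ^ (2 * kaf V.α)) ^ 2 := by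
    rw [← rp_mul hs (kaf V.α / 4) (1 / 25 + 4 * kaf V.α) _ rfl]
    exact mul_le_mul_of_nonneg_left he1 (by positivity)
  refine
    { T0 := ?_, Tk := ?_, k0 := ?_, k1 := ?_, r0 := ?_, r1 := ?_, N0 := ?_, N1 := ?_
      dl := ?_, dy := ?_, L0 := ?_, L1 := ?_, om := ?_, ep := ?_, ep1 := ?_, e1 := ?_, e11 := ?_
      s1 := ?_, s8 := ?_, s3 := ?_, s2n := ?_, s2 := ?_, q1 := ?_, q := ?_, n := ?_, nL := ?_
      z := ?_, l0 := ?_ }
  · show 0 < (1 - (V.th : ℝ)) * V.cl k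
    exact mul_pos (by linarith) hs
  · show (1 - (V.th : ℝ)) * V.cl k ≤ t1f c V.th * (c / 2 * V.cl (k + 1))
    rw [hcl]
    unfold t1f
    refine le_of_eq ?_
    field_simp
  · show k0f c V.th * V.cl k ≤ c / 2 * V.cl (k + 1)
    rw [hcl]
    unfold k0f
    refine le_of_eq ?_
    ring
  · show c / 2 * V.cl (k + 1) ≤ V.cl k
    rw [hcl]
    nlinarith [mul_pos hth0 hs]
  · show 0 ≤ 4 * C
    linarith
  · exact le_refl (4 * C)
  · show 0 ≤ 2 + cpd d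
    linarith
  · exact le_refl (2 + cpd d)
  · rfl
  · rfl
  · show 1 * (V.cl k : ℝ) ^ (-(3 / 4 : ℝ)) ≤
      4 * (1 / 4 * (V.cl k : ℝ) ^ (-(3 / 4) : ℝ) * (2 - V.sg n ^ (1 / 400 : ℝ)))
    have h3 : 0 ≤ (V.cl k : ℝ) ^ (-(3 / 4) : ℝ) := by positivity
    nlinarith
  · show 4 * (1 / 4 * (V.cl k : ℝ) ^ (-(3 / 4) : ℝ) * (2 - V.sg n ^ (1 / 400 : ℝ))) ≤
      2 * (V.cl k : ℝ) ^ (-(3 / 4 : ℝ))
    have h3 : 0 ≤ (V.cl k : ℝ) ^ (-(3 / 4) : ℝ) := by positivity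
    nlinarith
  · exact le_refl _
  · show 0 ≤ (V.cl k : ℝ) ^ kg V
    positivity
  · show (V.cl k : ℝ) ^ kg V ≤ (V.cl k : ℝ) ^ (kaf V.α / 4)
    exact le_refl _
  · show 0 < (V.w : ℝ) ^ (1 / 50 : ℝ) * (V.cl k : ℝ) ^ (2 * ka V)
    positivity
  · show (V.w : ℝ) ^ (1 / 50 : ℝ) * (V.cl k : ℝ) ^ (2 * kaf V.α) ≤ (V.cl k : ℝ) ^ (kaf V.α / 4)
    calc _ ≤ 1 * (V.cl k : ℝ) ^ (2 * kaf V.α) :=
          mul_le_mul_of_nonneg_right hw50 (by positivity)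
      _ = (V.cl k : ℝ) ^ (2 * kaf V.α) := one_mul _
      _ ≤ _ := rpow_anti hs hs1 (by linarith)
  · exact le_refl _
  · show (V.cl k : ℝ) ^ (1 / 8 : ℝ) ≤ (V.cl k : ℝ) ^ (kaf V.α / 4) *
      ((V.w : ℝ) ^ (1 / 50 : ℝ) * (V.cl k : ℝ) ^ (2 * kaf V.α)) ^ 2
    exact (rpow_anti hs hs1 (by linarith)).trans hce
  · show (V.cl k : ℝ) ^ (10 : ℝ) * (V.cl k : ℝ) ^ (-1 : ℝ) ≤ (V.cl k : ℝ) ^ (kaf V.α / 4) *
      ((V.w : ℝ) ^ (1 / 50 : ℝ) * (V.cl k : ℝ) ^ (2 * kaf V.α)) ^ 2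
    rw [rp_mul hs 10 (-1) 9 (by norm_num)]
    exact (rpow_anti hs hs1 (by linarith)).trans hce
  · show 0 ≤ (V.cl k : ℝ) ^ (1 / 4 + kg V)
    positivity
  · show (V.cl k : ℝ) ^ (1 / 4 + kg V) ≤ (V.cl k : ℝ) ^ (1 / 4 + kaf V.α / 4)
    exact le_refl _
  · exact hQ1.trans hbox
  · exact hQ.trans hbox
  · rfl
  · rfl
  · rfl
  · rfl

end

end Pool.Agent.AHH.H17
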